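import Pool.Agent.H68.GCL.Targets

/-!
MP_d2582e_lc, board gcl, row SZB: bounds for the sizes of small expansions.
-/

namespace Pool.Agent.H52.GCL

open Pool.Agent.H76.SW Pool.Agent.H68.GCL

theorem size_pos {A : Type} (ω : RQ A) : 1 ≤ ω.size := by
  cases ω with
  | cq c b sub p q =>
    rw [RQ.size]
    omega
  | union u sub =>
    rw [RQ.size]
    omega

theorem sum_pow_le {ι : Type} (K : ℕ) (hK : 2 ≤ K) (s : ι → ℕ) (hs : ∀ i, 1 ≤ s i)
    (S : Finset ι) : ∑ i ∈ S, K ^ s i ≤ K ^ ∑ i ∈ S, s i := by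
  classical
  induction S using Finset.induction_on with
  | empty => simp
  | insert a S ha ih =>
    rw [Finset.sum_insert ha, Finset.sum_insert ha, pow_add]
    rcases S.eq_empty_or_nonempty with rfl | ⟨b, hb⟩
    · simp
    · have h1 : 1 ≤ ∑ i ∈ S, s i :=
        (hs b).trans (Finset.single_le_sum (f := s) (fun i _ => Nat.zero_le _) hb)
      have h2 : 2 ≤ K ^ s a := hK.trans (Nat.le_self_pow (by have := hs a; omega) K)
      have h3 : 2 ≤ K ^ ∑ i ∈ S, s i := hK.trans (Nat.le_self_pow (by omega) K)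
      calc K ^ s a + ∑ i ∈ S, K ^ s i ≤ K ^ s a + K ^ ∑ i ∈ S, s i := Nat.add_le_add_left ih _
        _ ≤ K ^ s a * K ^ ∑ i ∈ S, s i := Nat.add_le_mul h2 h3

theorem step_bd {c : ℕ} (ν n m M T P : ℕ) (st : Fin m → ℕ) (hP : 1 ≤ P) (hM : M ≤ P)
    (hPs : P = (10 * (ν + 1)) ^ T) :
    n + ∑ i, CH (st i) ν (2 + M) ≤ (10 * (ν + 1)) ^ (1 + (c + n + m + ∑ i, st i) + T) := by
  set K := 10 * (ν + 1) with hK
  set S := ∑ i, st i with hS
  have h1 : ∑ i, CH (st i) ν (2 + M) = m + S * (ν * (7 + M)) := by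
    unfold CH
    rw [Finset.sum_add_distrib, hS, Finset.sum_mul]
    congr 1
    · simp
    · refine Finset.sum_congr rfl fun i _ => ?_
      ring
  have h2 : n + ∑ i, CH (st i) ν (2 + M) ≤ (n + m + S) * (K * P) := by
    rw [h1]
    have h3 : 7 + M ≤ 8 * P := by omega
    have h4 : ν * (7 + M) ≤ K * P := by
      calc ν * (7 + M) ≤ ν * (8 * P) := Nat.mul_le_mul_left _ h3
        _ ≤ K * P := by rw [hK]; nlinarith
    have h5 : 1 ≤ K * P := Nat.mul_pos (by rw [hK]; omega) hP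
    calc n + (m + S * (ν * (7 + M))) ≤ n * (K * P) + (m * (K * P) + S * (K * P)) := by
          refine Nat.add_le_add (Nat.le_mul_of_pos_right _ h5)
            (Nat.add_le_add (Nat.le_mul_of_pos_right _ h5) (Nat.mul_le_mul_left _ h4))
      _ = (n + m + S) * (K * P) := by ring
  have h6 : n + m + S ≤ K ^ (n + m + S) :=
    (Nat.lt_pow_self (by rw [hK]; omega)).le
  have h7 : 1 ≤ K := by rw [hK]; omega
  calc n + ∑ i, CH (st i) ν (2 + M) ≤ (n + m + S) * (K * P) := h2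
    _ ≤ K ^ (n + m + S) * (K * P) := Nat.mul_le_mul_right _ h6
    _ = K ^ (1 + (n + m + S) + T) := by rw [hPs]; ring
    _ ≤ K ^ (1 + (c + n + m + S) + T) := Nat.pow_le_pow_right h7 (by omega)

theorem sz_rq {A : Type} (ν : ℕ) (ω : RQ A) : SZ ν ω ≤ (10 * (ν + 1)) ^ ω.size := by
  have hK : 2 ≤ 10 * (ν + 1) := by omega
  induction ω with
  | cq c b sub p q ih =>
    have hM : ∑ j, SZ ν (sub j) ≤ (10 * (ν + 1)) ^ ∑ j, (sub j).size :=
      (Finset.sum_le_sum fun j _ => ih j).trans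
        (sum_pow_le _ hK _ (fun j => size_pos (sub j)) Finset.univ)
    rw [SZ, RQ.size]
    exact step_bd ν b.n b.m _ _ _ b.st (Nat.one_le_pow _ _ (by omega)) hM rfl
  | union u sub ih =>
    rw [SZ, RQ.size]
    calc ∑ j, SZ ν (sub j) ≤ (10 * (ν + 1)) ^ ∑ j, (sub j).size :=
          (Finset.sum_le_sum fun j _ => ih j).trans
            (sum_pow_le _ hK _ (fun j => size_pos (sub j)) Finset.univ)
      _ ≤ _ := Nat.pow_le_pow_right (by omega) (by omega)

theorem pf_SZB : T_SZB := by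
  intro A ν
  refine ⟨sz_rq ν, fun r t => ?_⟩
  have hM : ∑ j, SZ ν (t.sub j) ≤ (10 * (ν + 1)) ^ ∑ j, (t.sub j).size :=
    (Finset.sum_le_sum fun j _ => sz_rq ν (t.sub j)).trans
      (sum_pow_le _ (by omega) _ (fun j => size_pos (t.sub j)) Finset.univ)
  unfold SZC CRQ.size
  exact step_bd ν t.b.n t.b.m _ _ _ t.b.st (Nat.one_le_pow _ _ (by omega)) hM rfl

end Pool.Agent.H52.GCL
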