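import Pool.Agent.H68.GCL.Targets

/-!
MP_d2582e_lc, board gcl, row TNC: the number of types.
-/

namespace Pool.Agent.H52.GCL

open Pool.Agent.H76.SW Pool.Agent.H68.GCL

theorem card_pow (X : Type) [Finite X] : Finite (Set X) ∧ Nat.card (Set X) = 2 ^ Nat.card X := by
  classical
  have := Fintype.ofFinite X
  refine ⟨inferInstance, ?_⟩
  rw [Nat.card_eq_fintype_card, Fintype.card_set, Nat.card_eq_fintype_card]

theorem pf_TNC : T_TNC := by
  intro A J _ _ q
  induction q with
  | zero =>
    intro s
    have h := card_pow (Fct A J s)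
    refine ⟨h.1, ?_⟩
    change Nat.card (Set (Fct A J s)) = _
    rw [h.2]
    congr 1
    unfold Fct
    simp only [Nat.card_sum, Nat.card_prod, Nat.card_fin]
  | succ q ih =>
    intro s
    have hf := (ih (s + 1)).1
    have h := card_pow (Ty A J q (s + 1))
    refine ⟨h.1, ?_⟩
    change Nat.card (Set (Ty A J q (s + 1))) = _
    rw [h.2, (ih (s + 1)).2]
    rfl

end Pool.Agent.H52.GCL
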