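import Pool.Agent.H68.GCL.Targets

/-!
MP_d2582e_lc, board gcl, row TRI: reindexing of types.
-/

namespace Pool.Agent.H52.GCL

open Pool.Agent.H76.SW Pool.Agent.H68.GCL

theorem snc_comp {V : Type} {s s' : ℕ} (π : Fin s' → Fin s) (X : Fin s → Set V) (Y : Set V) :
    (fun σ => snc X Y ((Fin.snoc (α := fun _ => Fin (s + 1)) (fun x => (π x).castSucc)
      (Fin.last s) : Fin (s' + 1) → Fin (s + 1)) σ)) = snc (fun σ => X (π σ)) Y := by
  funext σ
  unfold snc
  refine Fin.lastCases ?_ (fun x => ?_) σ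
  · rw [Fin.snoc_last, Fin.snoc_last, Fin.snoc_last]
  · rw [Fin.snoc_castSucc, Fin.snoc_castSucc, Fin.snoc_castSucc]

/-- the map of the atomic facts -/
def mpF {A J : Type} {s s' : ℕ} (π : Fin s' → Fin s) : Fct A J s' → Fct A J s
  | .inl (a, σ, τ) => .inl (a, π σ, π τ)
  | .inr (.inl (σ, τ)) => .inr (.inl (π σ, π τ))
  | .inr (.inr (.inl σ)) => .inr (.inr (.inl (π σ)))
  | .inr (.inr (.inr (j, σ))) => .inr (.inr (.inr (j, π σ)))

theorem facts_comp {A J V : Type} (E : V → A → V → Prop) (c : J → V) {s s' : ℕ}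
    (π : Fin s' → Fin s) (X : Fin s → Set V) (f : Fct A J s') :
    f ∈ facts E c (fun σ => X (π σ)) ↔ mpF π f ∈ facts E c X := by
  rcases f with ⟨a, σ, τ⟩ | ⟨σ, τ⟩ | σ | ⟨j, σ⟩ <;> exact Iff.rfl

theorem pf_TRI : T_TRI := by
  intro A J V V' E c E' c' q
  induction q with
  | zero =>
    intro s s' π X X' h
    have h' : facts E c X = facts E' c' X' := h
    change facts E c (fun σ => X (π σ)) = facts E' c' (fun σ => X' (π σ))
    ext f
    rw [facts_comp E c π X f, facts_comp E' c' π X' f, h']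
  | succ q ih =>
    intro s s' π X X' h
    have h' : ∀ τ, (∃ Y : Set V, τ = tp E c q (snc X Y)) ↔
        ∃ Y : Set V', τ = tp E' c' q (snc X' Y) := fun τ => Set.ext_iff.1 h τ
    refine Set.ext fun τ => ?_
    change (∃ Y : Set V, τ = tp E c q (snc (fun σ => X (π σ)) Y)) ↔
      ∃ Y : Set V', τ = tp E' c' q (snc (fun σ => X' (π σ)) Y)
    constructor
    · rintro ⟨Y, rfl⟩
      obtain ⟨Y', hY'⟩ := (h' _).1 ⟨Y, rfl⟩
      refine ⟨Y', ?_⟩
      have h1 := ih (s + 1) (s' + 1) (Fin.snoc (α := fun _ => Fin (s + 1))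
        (fun x => (π x).castSucc) (Fin.last s)) (snc X Y) (snc X' Y') hY'
      rwa [snc_comp, snc_comp] at h1
    · rintro ⟨Y', rfl⟩
      obtain ⟨Y, hY⟩ := (h' _).2 ⟨Y', rfl⟩
      refine ⟨Y, ?_⟩
      have h1 := ih (s + 1) (s' + 1) (Fin.snoc (α := fun _ => Fin (s + 1))
        (fun x => (π x).castSucc) (Fin.last s)) (snc X Y) (snc X' Y') hY.symm
      rw [snc_comp, snc_comp] at h1
      exact h1.symm

end Pool.Agent.H52.GCL
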