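import Pool.Agent.H68.GCL.Targets

/-!
MP_d2582e_lc, board gcl, row WLK: short walks.
-/

namespace Pool.Agent.H52.GCL

open Pool.Agent.H76.SW Pool.Agent.H68.GCL

/-- walks of length `n` -/
def Wlk {α : Type} (R : α → α → Prop) (a b : α) (n : ℕ) : Prop :=
  ∃ f : ℕ → α, f 0 = a ∧ f n = b ∧ ∀ i < n, R (f i) (f (i + 1))

theorem wlk_ex {α : Type} (R : α → α → Prop) (a b : α) (h : Relation.ReflTransGen R a b) :
    ∃ n, Wlk R a b n := by
  induction h with
  | refl => exact ⟨0, fun _ => a, rfl, rfl, fun i hi => absurd hi (Nat.not_lt_zero i)⟩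
  | @tail c d _ hst ih =>
    obtain ⟨n, f, h0, hn, hs⟩ := ih
    refine ⟨n + 1, fun t => if t ≤ n then f t else d, ?_, ?_, fun i hi => ?_⟩
    · simp [h0]
    · simp
    · rcases Nat.lt_succ_iff_lt_or_eq.1 hi with h | h
      · have h1 : i ≤ n := h.le
        have h2 : i + 1 ≤ n := h
        simp only [h1, h2, if_true]
        exact hs i h
      · subst h
        simp only [le_refl, if_true, Nat.not_succ_le_self, if_false]
        rw [hn]
        exact hst

theorem wlk_cut {α : Type} (R : α → α → Prop) (f : ℕ → α) (n i j : ℕ) (hij : i < j) (hj : j ≤ n)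
    (hf : f i = f j) (hs : ∀ t < n, R (f t) (f (t + 1))) : Wlk R (f 0) (f n) (n - (j - i)) := by
  refine ⟨fun t => if t ≤ i then f t else f (t + (j - i)), by simp, ?_, fun t ht => ?_⟩
  · by_cases h : n - (j - i) ≤ i
    · have h1 : n = j := by omega
      have h2 : n - (j - i) = i := by omega
      simp only [h, if_true]
      rw [h2, hf, h1]
    · simp only [h, if_false]
      congr 1
      omega
  · rcases lt_trichotomy t i with h | h | h
    · have h1 : t ≤ i := h.le
      have h2 : t + 1 ≤ i := h
      simp only [h1, h2, if_true]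
      exact hs t (by omega)
    · subst h
      simp only [le_refl, if_true, Nat.not_succ_le_self, if_false]
      rw [hf, show t + 1 + (j - t) = j + 1 by omega]
      exact hs j (by omega)
    · have h1 : ¬ t ≤ i := by omega
      have h2 : ¬ t + 1 ≤ i := by omega
      simp only [h1, h2, if_false]
      rw [show t + 1 + (j - i) = t + (j - i) + 1 by omega]
      exact hs _ (by omega)

theorem pf_WLK : T_WLK := by
  intro α _ R a b h
  classical
  have := Fintype.ofFinite α
  have hex := wlk_ex R a b h
  obtain ⟨f, h0, hn, hs⟩ := Nat.find_spec hex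
  refine ⟨Nat.find hex, f, ?_, h0, hn, hs⟩
  set n := Nat.find hex with hnd
  by_contra hc
  rw [not_le] at hc
  have hninj : ¬ Function.Injective (fun t : Fin (n + 1) => f t) := by
    intro hinj
    have h1 := Fintype.card_le_of_injective _ hinj
    rw [Fintype.card_fin] at h1
    rw [Nat.card_eq_fintype_card] at hc
    omega
  rw [Function.not_injective_iff] at hninj
  obtain ⟨x, y, hxy, hne⟩ := hninj
  have key : ∀ i j : ℕ, i < j → j ≤ n → f i = f j → False := by
    intro i j hij hj hf
    have h1 := wlk_cut R f n i j hij hj hf hs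
    rw [h0, hn] at h1
    exact Nat.find_min hex (m := n - (j - i)) (by omega) h1
  have hx := x.2
  have hy := y.2
  rcases Nat.lt_or_gt_of_ne (fun h => hne (Fin.ext h) : (x : ℕ) ≠ y) with h1 | h1
  · exact key x y h1 (by omega) hxy
  · exact key y x h1 (by omega) hxy.symm

end Pool.Agent.H52.GCL
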